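import Pool.Agent.helper81.CI.Spec
import Pool.Agent.helper63.CL.LGC

/-! # ci:BMI: the symmetric pair of parameters gives the largest volume -/

set_option autoImplicit false

open MeasureTheory Set Filter Topology
open scoped ENNReal
open Pool.Agent.helper81.CW Pool.Agent.CL

namespace Pool.Agent.CI

theorem BMI_meas (hFAR : FAR_stmt) {n : ℕ} {C : Set (E n)} (hC : IsCompact C) (hne : C.Nonempty)
    (w : E n) (r s : ℝ) : MeasurableSet (AZ C w r s) := by
  have hcont := LGC_cont hFAR hC hne
  exact ((isClosed_le hcont continuous_const).inter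
      (isClosed_le (hcont.comp (by fun_prop : Continuous fun x : E n => (2 : ℝ) • w - x))
        continuous_const)).measurableSet

theorem BMI_pair (hFAR : FAR_stmt) (n : ℕ) (C : Set (E n)) (z : E n) (u v l : ℝ)
    (hC : IsCompact C) (hne : C.Nonempty) (hl0 : 0 < l) (hl1 : l < 1) :
    volume (AZ C z u v) ^ l * volume (AZ C z v u) ^ (1 - l) ≤
      volume (AZ C z (l * u + (1 - l) * v) (l * v + (1 - l) * u)) := by
  have hφ : MeasurePreserving (WithLp.toLp 2 : (Fin n → ℝ) → E n) volume volume :=
    PiLp.volume_preserving_toLp (Fin n)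
  set S : ℝ → ℝ → Set (Fin n → ℝ) := fun r s =>
    (WithLp.toLp 2 : (Fin n → ℝ) → E n) ⁻¹' (AZ C z r s) with hS
  have mS : ∀ r s, MeasurableSet (S r s) := fun r s =>
    hφ.measurable (BMI_meas hFAR hC hne z r s)
  have vS : ∀ r s, volume (S r s) = volume (AZ C z r s) := fun r s =>
    hφ.measure_preimage (BMI_meas hFAR hC hne z r s).nullMeasurableSet
  have hl1' : 0 < 1 - l := by linarith
  have key := Pool.Agent.helper96.prekopa_leindler (t := l) hl0 hl1 n
    (f := (S u v).indicator fun _ => 1) (g := (S v u).indicator fun _ => 1)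
    (h := (S (l * u + (1 - l) * v) (l * v + (1 - l) * u)).indicator fun _ => 1)
    (measurable_const.indicator (mS _ _)) (measurable_const.indicator (mS _ _))
    (measurable_const.indicator (mS _ _)) (by
      intro x y
      by_cases hx : x ∈ S u v
      · by_cases hy : y ∈ S v u
        · have hxy : l • x + (1 - l) • y ∈
              S (l * u + (1 - l) * v) (l * v + (1 - l) * u) := by
            have hx1 : far C (WithLp.toLp 2 x) ≤ u := hx.1
            have hx2 : far C ((2 : ℝ) • z - WithLp.toLp 2 x) ≤ v := hx.2
            have hy1 : far C (WithLp.toLp 2 y) ≤ v := hy.1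
            have hy2 : far C ((2 : ℝ) • z - WithLp.toLp 2 y) ≤ u := hy.2
            have e : (WithLp.toLp 2 (l • x + (1 - l) • y) : E n) =
                l • (WithLp.toLp 2 x : E n) + (1 - l) • (WithLp.toLp 2 y : E n) := by
              rw [WithLp.toLp_add, WithLp.toLp_smul, WithLp.toLp_smul]
            have e2 : (2 : ℝ) • z -
                (l • (WithLp.toLp 2 x : E n) + (1 - l) • (WithLp.toLp 2 y : E n)) =
                l • ((2 : ℝ) • z - (WithLp.toLp 2 x : E n)) +
                  (1 - l) • ((2 : ℝ) • z - (WithLp.toLp 2 y : E n)) := by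
              module
            have h1 := (hFAR n C hC hne (WithLp.toLp 2 x) (WithLp.toLp 2 y)).2.2.2 l (1 - l)
              hl0.le hl1'.le (by ring)
            have h2 := (hFAR n C hC hne ((2 : ℝ) • z - (WithLp.toLp 2 x : E n))
              ((2 : ℝ) • z - (WithLp.toLp 2 y : E n))).2.2.2 l (1 - l)
              hl0.le hl1'.le (by ring)
            have g1 : far C (l • (WithLp.toLp 2 x : E n) + (1 - l) • (WithLp.toLp 2 y : E n)) ≤
                l * u + (1 - l) * v :=
              h1.trans (add_le_add (mul_le_mul_of_nonneg_left hx1 hl0.le)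
                (mul_le_mul_of_nonneg_left hy1 hl1'.le))
            have g2 : far C (l • ((2 : ℝ) • z - (WithLp.toLp 2 x : E n)) +
                (1 - l) • ((2 : ℝ) • z - (WithLp.toLp 2 y : E n))) ≤ l * v + (1 - l) * u :=
              h2.trans (add_le_add (mul_le_mul_of_nonneg_left hx2 hl0.le)
                (mul_le_mul_of_nonneg_left hy2 hl1'.le))
            change far C (WithLp.toLp 2 (l • x + (1 - l) • y)) ≤ l * u + (1 - l) * v ∧
              far C ((2 : ℝ) • z - WithLp.toLp 2 (l • x + (1 - l) • y)) ≤
                l * v + (1 - l) * u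
            rw [e]
            refine ⟨g1, ?_⟩
            rw [e2]
            exact g2
          rw [Set.indicator_of_mem hx, Set.indicator_of_mem hy, Set.indicator_of_mem hxy]
          simp
        · rw [Set.indicator_of_notMem hy, ENNReal.zero_rpow_of_pos hl1', mul_zero]
          exact zero_le
      · rw [Set.indicator_of_notMem hx, ENNReal.zero_rpow_of_pos hl0, zero_mul]
        exact zero_le)
  rw [lintegral_indicator_const (mS _ _), lintegral_indicator_const (mS _ _),
    lintegral_indicator_const (mS _ _), one_mul, one_mul, one_mul, vS, vS, vS] at key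
  exact key

theorem BMI_swap (hFAR : FAR_stmt) {n : ℕ} {C : Set (E n)} (hC : IsCompact C) (hne : C.Nonempty)
    (z : E n) (u v : ℝ) : volume (AZ C z v u) = volume (AZ C z u v) := by
  have hmp : MeasurePreserving (fun x : E n => (2 : ℝ) • z - x) volume volume :=
    MeasureTheory.Measure.measurePreserving_sub_left volume ((2 : ℝ) • z)
  have hpre : (fun x : E n => (2 : ℝ) • z - x) ⁻¹' (AZ C z u v) = AZ C z v u := by
    ext x
    simp only [AZ, mem_preimage, Set.mem_ofPred_eq, sub_sub_cancel]
    exact and_comm
  rw [← hpre, hmp.measure_preimage (BMI_meas hFAR hC hne z u v).nullMeasurableSet]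

theorem BMI (hFAR : FAR_stmt) : BMI_stmt := by
  intro n C z u v hC hne
  have h := BMI_pair hFAR n C z u v (1 / 2) hC hne (by norm_num) (by norm_num)
  rw [BMI_swap hFAR hC hne z u v] at h
  have e1 : (1 : ℝ) - 1 / 2 = 1 / 2 := by norm_num
  have e2 : (1 / 2 : ℝ) * u + 1 / 2 * v = (u + v) / 2 := by ring
  have e3 : (1 / 2 : ℝ) * v + 1 / 2 * u = (u + v) / 2 := by ring
  rw [e1, e2, e3, ← ENNReal.rpow_add_of_nonneg _ _ (by norm_num) (by norm_num)] at h
  norm_num at h
  exact h

end Pool.Agent.CI
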